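import Mathlib
import Pool.Agent.Q148.BM.TensReg

/-!
# Breuil–Mézard for `GL_2`: both questions as a recursion in the Hodge type

Notation. `J`: the embeddings of `K`. A labelled weight `l : HT J 2` is a pair of integers for
every embedding; `Reg l`: strictly decreasing at every embedding, i.e. `l = λ + (1,0)` with a
weight `λ`; `eta = (1,0)` is the weight `0`. `T`: the types, i.e. the `σ(τ)` for all inertial
types `τ` and the `σ^cr(τ)` for the scalar ones. The Brauer lift of the standard representation
(along an embedding `j`) is a virtual representation of `GL_2(k)`; its product with a type is an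
integral combination of types, since a type is induced from a group with a normal pro-`p`
subgroup such that the quotient is `GL_2(k)` or a torus.
-/

namespace Pool.Agent.Results.MP_22cf7a_nt.BothQuestions

open Q148.BM Finset

/-- The data of the conjecture for a fixed two-dimensional residual representation of `G_K`, with
the properties that are used. `T`: types. `V`: irreducible `𝔽`-representations of `GL_2(k)`.
`n t k l`: the multiplicity of `k` in the reduction of the product of the type `t` with `W_λ`.
`mult t l`: the Hilbert–Samuel multiplicity of `R^{τ,λ} / ϖ` (for `σ(τ)`) and of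
`R^{τ,λ,cr} / ϖ` (for `σ^cr(τ)`). -/
structure TypeData (J T V : Type*) [Fintype J] [DecidableEq J] [Fintype V] where
  /-- multiplicities in the reductions -/
  n : T → V → HT J 2 → ℤ
  /-- Hilbert–Samuel multiplicities -/
  mult : T → HT J 2 → ℤ
  /-- `c j 1 t t'`: the coefficient of `t'` in the product of `t` with the Brauer lift of
  the standard representation (along `j`); `c j 2 t t'`: the same for the determinant -/
  c : J → ℕ → T → (T →₀ ℤ)
  /-- `τ j t` is the product of `t` with the Brauer lift of the determinant -/
  τ : J → T ≃ T
  /-- the meaning of `τ` -/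
  det : ∀ j t, c j 2 t = Finsupp.single (τ j t) 1
  /-- Pieri's rule: the multiplicities satisfy the tensor relations -/
  tensor_n : ∀ k, TensRel 2 c (fun t => n t k)
  /-- Brauer: the decomposition map of `GL_2(k)` is surjective -/
  span_n : Submodule.span ℤ (Set.range fun t k => n t k eta) = ⊤
  /-- twisting by potentially crystalline characters which are trivial modulo `p` -/
  twist : TwistT τ mult

/-- A linear functional `ι` on the Grothendieck group `ℤ^V` with all equalities of Q1 and Q2
exists if and only if (i) for all regular `l`, `e(t; l + ε₁) + e(t; l + ε₂)` is the combination of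
the `e(t'; l)` with the coefficients of the product of `t` with the Brauer lift of the standard
representation; (ii) for weight zero the multiplicities satisfy the linear relations between
the reductions of the types. -/
theorem result {J T V : Type*} [Fintype J] [DecidableEq J] [Fintype V] (D : TypeData J T V) :
    (∃ ι : (V → ℤ) →ₗ[ℤ] ℤ, ∀ t l, Reg l → D.mult t l = ι (fun k => D.n t k l)) ↔
      (∀ t (j : J) (l : HT J 2), Reg l →
        D.mult t (l + bump j {0} 1) +
          (if l j 1 + 1 < l j 0 then D.mult t (l + bump j {1} 1) else 0) =
        (D.c j 1 t).sum fun t' m => m * D.mult t' l) ∧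
      (∀ m : T →₀ ℤ, (∀ k, (m.sum fun t x => x * D.n t k eta) = 0) →
        (m.sum fun t x => x * D.mult t eta) = 0) := by
  classical
  have hι : (∃ ι : (V → ℤ) →ₗ[ℤ] ℤ, ∀ t l, Reg l → D.mult t l = ι (fun k => D.n t k l)) ↔
      ∃ μ : V → ℤ, ∀ t l, Reg l → D.mult t l = ∑ k, D.n t k l • μ k := by
    constructor
    · rintro ⟨ι, h⟩
      refine ⟨fun k => ι (Pi.single k 1), fun t l hl => ?_⟩
      rw [h t l hl]
      conv_lhs => rw [pi_eq_sum_univ' (fun k => D.n t k l), map_sum]
      refine Finset.sum_congr rfl fun k _ => ?_
      rw [map_smul]
    · rintro ⟨μ, h⟩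
      refine ⟨Fintype.linearCombination ℤ μ, fun t l hl => ?_⟩
      rw [h t l hl, Fintype.linearCombination_apply]
  rw [hι]
  have hreg : TensReg D.c D.mult ↔ ∀ t (j : J) (l : HT J 2), Reg l →
      D.mult t (l + bump j {0} 1) +
        (if l j 1 + 1 < l j 0 then D.mult t (l + bump j {1} 1) else 0) =
      (D.c j 1 t).sum fun t' m => m * D.mult t' l := by
    have key : ∀ (t : T) (j : J) (l : HT J 2), Reg l →
        ((∑ S ∈ powersetCard 1 univ, alt (D.mult t) (l + bump j S 1) =
          (D.c j 1 t).sum fun t' m => m • alt (D.mult t') l) ↔
        (D.mult t (l + bump j {0} 1) +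
          (if l j 1 + 1 < l j 0 then D.mult t (l + bump j {1} 1) else 0) =
          (D.c j 1 t).sum fun t' m => m * D.mult t' l)) := by
      intro t j l hl
      rw [sum_two, alt_of_reg _ (reg_bump0 j l hl), alt_bump1 _ j l hl]
      have : ((D.c j 1 t).sum fun t' m => m • alt (D.mult t') l) =
          (D.c j 1 t).sum fun t' m => m * D.mult t' l :=
        Finset.sum_congr rfl fun t' _ => by
          beta_reduce
          rw [alt_of_reg _ hl, smul_eq_mul]
      rw [this]
    constructor
    · intro h t j l hl
      exact (key t j l hl).1 (h t j 1 le_rfl one_lt_two l hl)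
    · intro h t j i h1 h2 l hl
      obtain rfl : i = 1 := by omega
      exact (key t j l hl).2 (h t j l hl)
  have h0 := factor_cycles D.span_n fun t => D.mult t eta
  simp only [smul_eq_mul] at h0
  rw [← hreg, ← h0]
  constructor
  · rintro ⟨μ, h2⟩
    have h3 := (criterionTR two_pos D.det D.tensor_n D.mult D.twist μ).1 h2
    exact ⟨h3.1, μ, by simpa using h3.2⟩
  · rintro ⟨h1, μ, h3⟩
    exact ⟨μ, (criterionTR two_pos D.det D.tensor_n D.mult D.twist μ).2
      ⟨h1, by simpa using h3⟩⟩

end Pool.Agent.Results.MP_22cf7a_nt.BothQuestions
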